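import Pool.Agent.H8.GabR

set_option autoImplicit false

namespace Pool.Agent.Results.MP_5c6457_an.Universal

open Pool.Agent.H25.Gab

theorem result :
    (Nonempty (ℕ ≃ ℤ × ℤ) ∧ ∀ σ : ℕ ≃ ℤ × ℤ, ∀ (a b : ℝ) (g : L2R) (f : ℤ × ℤ → L2R),
      IsGabor a b g f → IsFrame f → (∃ τ : ℕ ≃ ℤ × ℤ, HasBoundedRep fun k => f (τ k)) →
        HasBoundedRep fun k => f (σ k)) ∧
    (Nonempty (ℤ ≃ ℤ × ℤ) ∧ ∀ σ : ℤ ≃ ℤ × ℤ, ∀ (a b : ℝ) (g : L2R) (f : ℤ × ℤ → L2R),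
      IsGabor a b g f → IsFrame f → (∃ τ : ℤ ≃ ℤ × ℤ, HasBoundedRep fun k => f (τ k)) →
        HasBoundedRep fun k => f (σ k)) :=
  ⟨⟨nonempty_equiv_of_countable, fun σ a b g f hf hF h =>
      Pool.Agent.H8.GabR.riesz_rep (add_left_injective 1) f (main a b g f hf hF (Or.inl h)) σ⟩,
    ⟨nonempty_equiv_of_countable, fun σ a b g f hf hF h =>
      Pool.Agent.H8.GabR.riesz_rep (add_left_injective 1) f (main a b g f hf hF (Or.inr h)) σ⟩⟩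

end Pool.Agent.Results.MP_5c6457_an.Universal
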